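import Mathlib

/-!
# Brick LATT: counting in a lattice of rank `f + 1`
-/

set_option autoImplicit false

namespace Pool.Agent.K3h87.DM

theorem latt_core (f : ℕ) (Λ : AddSubgroup (Fin (f + 1) → ℚ_[2]))
    (hsm : ∀ (a : ℤ_[2]), ∀ v ∈ Λ, (a : ℚ_[2]) • v ∈ Λ)
    (hspan : ∀ v : Fin (f + 1) → ℚ_[2], ∃ k : ℕ, (2 : ℚ_[2]) ^ k • v ∈ Λ)
    (hbd : ∃ C : ℝ, ∀ v ∈ Λ, ‖v‖ ≤ C)
    (M : Fin f → Set (Fin (f + 1) → ℚ_[2]))
    (h1 : ∀ x, ∀ v ∈ Λ, ∀ w ∈ Λ, v ∈ M x ∨ w ∈ M x ∨ v + w ∈ M x)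
    (h2 : ∀ x, ∀ v ∈ Λ, ∀ w ∈ Λ, v ∈ M x → w ∈ M x → v + w ∈ M x)
    (h3 : ∀ x, ∀ v ∈ Λ, v ∈ M x → -v ∈ M x)
    (h4 : ∀ v ∈ Λ, (∀ x, v ∈ M x) → (1 / 2 : ℚ_[2]) • v ∈ Λ) : False := by
  classical
  obtain ⟨C, hC⟩ := hbd
  have hsmul : ∀ (a : ℤ_[2]) (v : Fin (f + 1) → ℚ_[2]), a • v = (a : ℚ_[2]) • v := by
    intro a v
    rfl
  have hsm' : ∀ (a : ℤ_[2]) {v : Fin (f + 1) → ℚ_[2]}, v ∈ Λ → a • v ∈ Λ := by
    intro a v hv
    rw [hsmul]
    exact hsm a v hv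
  let Λ' : Submodule ℤ_[2] (Fin (f + 1) → ℚ_[2]) := { Λ with smul_mem' := hsm' }
  have hmem : ∀ v, v ∈ Λ' ↔ v ∈ Λ := fun v => Iff.rfl
  obtain ⟨N, hN⟩ := pow_unbounded_of_one_lt C (by norm_num : (1 : ℝ) < 2)
  have hnorm : ∀ v ∈ Λ, ∀ i, ‖(2 : ℚ_[2]) ^ N * v i‖ ≤ 1 := by
    intro v hv i
    have e1 : ‖v i‖ ≤ C := (norm_le_pi_norm v i).trans (hC v hv)
    have e2 : ‖(2 : ℚ_[2])‖ = 2⁻¹ := by
      have := Padic.norm_p (p := 2)
      exact_mod_cast this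
    rw [norm_mul, norm_pow, e2, inv_pow]
    have e3 : (0 : ℝ) < 2 ^ N := by positivity
    rw [inv_mul_le_iff₀ e3, mul_one]
    linarith
  let g : Λ' → (Fin (f + 1) → ℤ_[2]) := fun v i => ⟨(2 : ℚ_[2]) ^ N * v.1 i, hnorm v.1 v.2 i⟩
  have hadd : ∀ v w : Λ', g (v + w) = g v + g w := by
    intro v w
    funext i
    apply Subtype.ext
    show (2 : ℚ_[2]) ^ N * (v.1 i + w.1 i) = (2 : ℚ_[2]) ^ N * v.1 i + (2 : ℚ_[2]) ^ N * w.1 i
    ring
  have hsc : ∀ (a : ℤ_[2]) (v : Λ'), g (a • v) = a • g v := by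
    intro a v
    funext i
    apply Subtype.ext
    show (2 : ℚ_[2]) ^ N * ((a : ℚ_[2]) * v.1 i) = (a : ℚ_[2]) * ((2 : ℚ_[2]) ^ N * v.1 i)
    ring
  let φ : Λ' →ₗ[ℤ_[2]] (Fin (f + 1) → ℤ_[2]) :=
    { toFun := g
      map_add' := hadd
      map_smul' := hsc }
  have hφ : Function.Injective φ := by
    intro v w h
    apply Subtype.ext
    funext i
    have h5 := congrArg (fun g => ((g i : ℤ_[2]) : ℚ_[2])) h
    have h6 : (2 : ℚ_[2]) ^ N * v.1 i = (2 : ℚ_[2]) ^ N * w.1 i := h5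
    have h7 : (2 : ℚ_[2]) ^ N ≠ 0 := pow_ne_zero _ two_ne_zero
    exact mul_left_cancel₀ h7 h6
  haveI : Module.Finite ℤ_[2] Λ' := Module.Finite.of_injective φ hφ
  haveI : Module.Free ℤ_[2] Λ' := Module.Free.of_equiv (LinearEquiv.ofInjective φ hφ).symm
  let b := Module.Free.chooseBasis ℤ_[2] Λ'
  set ι := Module.Free.ChooseBasisIndex ℤ_[2] Λ' with hι
  have hcard : f + 1 ≤ Fintype.card ι := by
    have hsp : Submodule.span ℚ_[2] (Set.range fun i : ι => (b i : Fin (f + 1) → ℚ_[2])) = ⊤ := by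
      rw [eq_top_iff]
      intro v _
      obtain ⟨k, hk⟩ := hspan v
      have h5 : (2 : ℚ_[2]) ^ k • v ∈
          Submodule.span ℚ_[2] (Set.range fun i : ι => (b i : Fin (f + 1) → ℚ_[2])) := by
        have h6 := congrArg (fun u : Λ' => (u : Fin (f + 1) → ℚ_[2])) (b.sum_repr ⟨_, hk⟩)
        simp only at h6
        rw [← h6]
        rw [Submodule.coe_sum]
        apply Submodule.sum_mem
        intro i _
        rw [Submodule.coe_smul, hsmul]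
        exact Submodule.smul_mem _ _ (Submodule.subset_span ⟨i, rfl⟩)
      have h7 : (2 : ℚ_[2]) ^ k ≠ 0 := pow_ne_zero _ two_ne_zero
      have h8 := Submodule.smul_mem _ (((2 : ℚ_[2]) ^ k)⁻¹) h5
      rwa [smul_smul, inv_mul_cancel₀ h7, one_smul] at h8
    have h9 := finrank_range_le_card (R := ℚ_[2]) (fun i : ι => (b i : Fin (f + 1) → ℚ_[2]))
    unfold Set.finrank at h9
    rw [hsp, finrank_top, Module.finrank_fin_fun] at h9
    exact h9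
  let vS : Finset ι → Λ' := fun S => ∑ j ∈ S, b j
  have hpig : ∃ S S' : Finset ι, S ≠ S' ∧
      {x | (vS S : Fin (f + 1) → ℚ_[2]) ∈ M x} = {x | (vS S' : Fin (f + 1) → ℚ_[2]) ∈ M x} := by
    have := Fintype.exists_ne_map_eq_of_card_lt
      (fun S : Finset ι => ({x | (vS S : Fin (f + 1) → ℚ_[2]) ∈ M x} : Set (Fin f))) (by
        rw [Fintype.card_set, Fintype.card_finset, Fintype.card_fin]
        exact Nat.pow_lt_pow_right (by norm_num) (by omega))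
    obtain ⟨S, S', hne, he⟩ := this
    exact ⟨S, S', hne, he⟩
  obtain ⟨S, S', hne, he⟩ := hpig
  have hdiff : ∀ x, (vS S : Fin (f + 1) → ℚ_[2]) - (vS S' : Fin (f + 1) → ℚ_[2]) ∈ M x := by
    intro x
    have hx : (vS S : Fin (f + 1) → ℚ_[2]) ∈ M x ↔ (vS S' : Fin (f + 1) → ℚ_[2]) ∈ M x := by
      have := Set.ext_iff.1 he x
      exact this
    have hS : (vS S : Fin (f + 1) → ℚ_[2]) ∈ Λ := (vS S).2
    have hS' : (vS S' : Fin (f + 1) → ℚ_[2]) ∈ Λ := (vS S').2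
    by_cases h : (vS S : Fin (f + 1) → ℚ_[2]) ∈ M x
    · rw [sub_eq_add_neg]
      exact h2 x _ hS _ (Λ.neg_mem hS') h (h3 x _ hS' (hx.1 h))
    · have h' : (vS S' : Fin (f + 1) → ℚ_[2]) ∉ M x := fun h'' => h (hx.2 h'')
      have e1 := (h1 x _ hS _ hS').resolve_left h |>.resolve_left h'
      have e2 := (h1 x _ hS' _ hS').resolve_left h' |>.resolve_left h'
      have e3 := h2 x _ (Λ.add_mem hS hS') _ (Λ.neg_mem (Λ.add_mem hS' hS')) e1
        (h3 x _ (Λ.add_mem hS' hS') e2)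
      have e4 : (vS S : Fin (f + 1) → ℚ_[2]) + (vS S' : Fin (f + 1) → ℚ_[2]) +
          -((vS S' : Fin (f + 1) → ℚ_[2]) + (vS S' : Fin (f + 1) → ℚ_[2])) =
          (vS S : Fin (f + 1) → ℚ_[2]) - (vS S' : Fin (f + 1) → ℚ_[2]) := by abel
      rwa [e4] at e3
  have hhalf := h4 _ (Λ.sub_mem (vS S).2 (vS S').2) hdiff
  let u : Λ' := ⟨_, hhalf⟩
  have hu : (2 : ℤ_[2]) • u = vS S - vS S' := by
    apply Subtype.ext
    rw [Submodule.coe_smul, hsmul, Submodule.coe_sub]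
    show ((2 : ℤ_[2]) : ℚ_[2]) • ((1 / 2 : ℚ_[2]) • _) = _
    rw [smul_smul]
    have : ((2 : ℤ_[2]) : ℚ_[2]) * (1 / 2) = 1 := by
      have : ((2 : ℤ_[2]) : ℚ_[2]) = 2 := by norm_cast
      rw [this]
      norm_num
    rw [this, one_smul]
  have hrep : ∀ j, 2 * b.repr u j = (if j ∈ S then (1 : ℤ_[2]) else 0) - (if j ∈ S' then 1 else 0) := by
    intro j
    have h5 := congrArg (fun w => b.repr w j) hu
    simp only [map_smul, map_sub, Finsupp.smul_apply, Finsupp.sub_apply, smul_eq_mul] at h5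
    rw [h5]
    have h6 : ∀ T : Finset ι, b.repr (vS T) j = if j ∈ T then (1 : ℤ_[2]) else 0 := by
      intro T
      show b.repr (∑ i ∈ T, b i) j = _
      rw [map_sum, Finsupp.finsetSum_apply]
      simp only [Module.Basis.repr_self, Finsupp.single_apply]
      rw [Finset.sum_ite_eq' T j]
    rw [h6, h6]
  have hnot : ∀ c : ℤ_[2], ‖2 * c‖ < 1 := by
    intro c
    rw [norm_mul]
    have e2 : ‖(2 : ℤ_[2])‖ = 2⁻¹ := by
      have := PadicInt.norm_p (p := 2)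
      exact_mod_cast this
    rw [e2]
    have := PadicInt.norm_le_one c
    linarith
  apply hne
  ext j
  have h5 := hrep j
  have h6 := hnot (b.repr u j)
  rw [h5] at h6
  by_cases hj : j ∈ S <;> by_cases hj' : j ∈ S' <;> simp [hj, hj'] at h6 ⊢

end Pool.Agent.K3h87.DM
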