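import Pool.Agent.K3h12.DM.Stm
import Pool.Agent.K3h87.DM.LATTcore

/-!
# Brick LATT
-/

set_option autoImplicit false

namespace Pool.Agent.K3h87.DM

theorem t_LATT : Pool.Agent.K3h12.DM.S_LATT := by
  intro f Λ hsm hspan hbd M h1 h2 h3 h4
  exact latt_core f Λ hsm hspan hbd M h1 h2 h3 h4

end Pool.Agent.K3h87.DM
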